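import Mathlib

import Pool.Agent.Helper40.CX.H51EW.Defs
import Pool.Agent.Helper40.CX.H83VF.Fields
import Pool.Agent.Helper40.CX.H83VF.Kill
import Pool.Agent.Helper40.CX.Good

namespace CX

/-!
# Even functions, and odd functions at singular fibres, on a Weierstrass model
-/

set_option linter.unusedSectionVars false

namespace Pool.Agent.Helper94.EW

open VC VF Function Polynomial
open Pool.Agent.Helper51.EW

universe u

variable {k : Type u} [Field k] {W : Wei k}

/-- A binary form along a line, as a polynomial. -/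
noncomputable def alongP (F : MvPolynomial (Fin 2) k) (r r' : Fin 2 → k) : k[X] :=
  MvPolynomial.aeval (fun i => C (r i) + X * C (r' i - r i)) F

lemma aeval_alongP {K : Type u} [Field K] [Algebra k K] (τ : K) (F : MvPolynomial (Fin 2) k)
    (r r' : Fin 2 → k) : aeval τ (alongP F r r') =
      MvPolynomial.aeval (fun i => algebraMap k K (r i) + τ * algebraMap k K (r' i - r i)) F := by
  unfold alongP
  have h := MvPolynomial.map_aeval (fun i : Fin 2 => (C (r i) + X * C (r' i - r i) : k[X]))
    (Polynomial.aeval τ : k[X] →ₐ[k] K).toRingHom F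
  have h2 : (Polynomial.aeval τ) ((MvPolynomial.aeval
      (fun i : Fin 2 => (C (r i) + X * C (r' i - r i) : k[X]))) F) =
      ((Polynomial.aeval τ : k[X] →ₐ[k] K).comp (MvPolynomial.aeval
      (fun i : Fin 2 => (C (r i) + X * C (r' i - r i) : k[X])))) F := rfl
  rw [h2, MvPolynomial.comp_aeval]
  congr 2
  funext i
  simp only [map_add, map_mul, aeval_C, aeval_X]

lemma eval_alongP (F : MvPolynomial (Fin 2) k) (r r' : Fin 2 → k) (t : k) :
    (alongP F r r').eval t = MvPolynomial.aeval (fun i => r i + t * (r' i - r i)) F := by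
  have := aeval_alongP (K := k) t F r r'
  simpa [Polynomial.aeval_def, Polynomial.eval₂_eq_eval_map] using this

variable [IsAlgClosed k] [Good k]

/-- Even functions agree at affine points. -/
lemma even_aff {ψ : W.surface.Pt → ℂ} (h : Kills W.surface ψ)
    (he : ∀ p, ψ (neg p) = ψ p) {r r' : Fin 2 → k} (hr : r ≠ 0) (hr' : r' ≠ 0) {c d c' d' : k}
    (h1 : d ^ 2 = c ^ 3 + MvPolynomial.aeval r W.A * c + MvPolynomial.aeval r W.B)
    (h1' : d' ^ 2 = c' ^ 3 + MvPolynomial.aeval r' W.A * c' + MvPolynomial.aeval r' W.B) :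
    ψ (apt W r c d) = ψ (apt W r' c' d') := by
  set x : k[X] := C c + X * C (c' - c) with hx
  set S : k[X] := x ^ 3 + alongP W.A r r' * x + alongP W.B r r' with hS
  obtain ⟨K, _, _, τ, y, hK, hτ, hy⟩ := exists_poly_roots (k := k) two_ne_zero (fun _ : Fin 1 => S)
  have hy0 := hy 0
  set u : Fin 2 → K := fun i => algebraMap k K (r i) + τ * algebraMap k K (r' i - r i) with hu
  have hKy : y 0 ^ 2 = (aeval τ x) ^ 3 + MvPolynomial.aeval u W.A * aeval τ x +
      MvPolynomial.aeval u W.B := by
    rw [hy0, hS, map_add, map_add, map_mul, map_pow, aeval_alongP, aeval_alongP]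
  have key : ∀ (t : k) (s : Fin 2 → k) (e f : k), s ≠ 0 →
      (∀ i, s i = r i + t * (r' i - r i)) → e = x.eval t →
      f ^ 2 = e ^ 3 + MvPolynomial.aeval s W.A * e + MvPolynomial.aeval s W.B →
      ∀ v : Place k K, IsRes v τ t → ψ (W.surface.eval hK (apt W u (aeval τ x) (y 0)) v) =
        ψ (apt W s e f) := by
    intro t s e f hs hst hex hf v hv
    have hSe : S.eval t = f ^ 2 := by
      rw [hS, eval_add, eval_add, eval_mul, eval_pow, eval_alongP, eval_alongP, ← hex, hf]
      have : (fun i => r i + t * (r' i - r i)) = s := by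
        funext i; rw [hst i]
      rw [this]
    obtain ⟨g, hg, hg2⟩ := exists_res_of_pow hK two_ne_zero (x := y 0) (v := v) (c := S.eval t)
      (by rw [hy0]; exact hv.poly)
    have hxe : IsRes v (aeval τ x) e := by rw [hex]; exact hv.poly
    have hue : ∀ i, IsRes v (u i) (s i) := by
      intro i
      rw [hst i]
      exact (isRes_const _).add (hv.mul (isRes_const _))
    rw [eval_apt hK v hKy hs hue hxe hg]
    rw [hSe] at hg2
    rcases sq_eq_sq_iff_eq_or_eq_neg.mp hg2 with h2 | h2
    · rw [h2]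
    · rw [h2, ← neg_apt hs hf, he]
  have e0 : ∀ i, r i = r i + 0 * (r' i - r i) := fun i => by ring
  have e1 : ∀ i, r' i = r i + 1 * (r' i - r i) := fun i => by ring
  exact path h hK _ hτ zero_ne_one (key 0 r c d hr e0 (by simp [hx]) h1)
    (key 1 r' c' d' hr' e1 (by simp [hx]) h1')

/-- The values of an even function on the zero section. -/
lemma even_zero {ψ : W.surface.Pt → ℂ} (h : Kills W.surface ψ)
    (he : ∀ p, ψ (neg p) = ψ p) {r : Fin 2 → k} (hr : r ≠ 0) :
    ∃ c d : k, d ^ 2 = c ^ 3 + MvPolynomial.aeval r W.A * c + MvPolynomial.aeval r W.B ∧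
      ψ (zeroPt r hr) = ψ (apt W r c d) := by
  set A0 : k := MvPolynomial.aeval r W.A with hA0
  set B0 : k := MvPolynomial.aeval r W.B with hB0
  set g : k[X] := 1 + C A0 * X ^ 2 + C B0 * X ^ 3 with hg
  have hg0 : g.eval 0 = 1 := by simp [hg]
  obtain ⟨b, hb⟩ : ∃ b, (X * g).eval b ≠ 0 := by
    by_contra hcon
    push Not at hcon
    have h0 : X * g = 0 := Polynomial.funext (fun b => by rw [hcon b, eval_zero])
    have h1 : g = 0 := (mul_eq_zero.mp h0).resolve_left X_ne_zero
    rw [h1, eval_zero] at hg0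
    exact zero_ne_one hg0
  rw [eval_mul, eval_X] at hb
  have hb0 : b ≠ 0 := left_ne_zero_of_mul hb
  have hgb : g.eval b ≠ 0 := right_ne_zero_of_mul hb
  obtain ⟨K, _, _, τ, Z', hK, hτ, hZ'⟩ := exists_poly_roots (k := k) two_ne_zero
    (fun _ : Fin 1 => X * g)
  set Z := Z' 0 with hZd
  have hZ : Z ^ 2 = τ * aeval τ g := by
    have := hZ' 0
    rwa [map_mul, aeval_X] at this
  have hgne : g ≠ 0 := by
    intro h0
    rw [h0, eval_zero] at hg0
    exact zero_ne_one hg0
  have hgK : aeval τ g ≠ 0 := aeval_ne_zero hτ hgne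
  have hgτ : aeval τ g = 1 + algebraMap k K A0 * τ ^ 2 + algebraMap k K B0 * τ ^ 3 := by
    rw [hg]
    simp only [map_add, map_one, map_mul, map_pow, aeval_C, aeval_X]
  have hAK : MvPolynomial.aeval (fun i => algebraMap k K (r i)) W.A = algebraMap k K A0 :=
    MvPolynomial.aeval_algebraMap_apply K r W.A
  have hBK : MvPolynomial.aeval (fun i => algebraMap k K (r i)) W.B = algebraMap k K B0 :=
    MvPolynomial.aeval_algebraMap_apply K r W.B
  have hune : (fun i => algebraMap k K (r i)) ≠ 0 := by
    obtain ⟨j, hj⟩ := Function.ne_iff.mp hr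
    intro h0
    exact hj ((_root_.map_eq_zero _).mp (congrFun h0 j))
  let a : Coord W K :=
    { u := fun i => algebraMap k K (r i)
      w := ![Z, aeval τ g, τ * Z]
      u_ne := hune
      w_ne := fun h0 => hgK (congrFun h0 1)
      eqn := by
        change (aeval τ g) ^ 2 * (τ * Z) = Z ^ 3 + MvPolynomial.aeval (fun i => algebraMap k K (r i)) W.A
          * Z * (τ * Z) ^ 2 + MvPolynomial.aeval (fun i => algebraMap k K (r i)) W.B * (τ * Z) ^ 3
        rw [hAK, hBK]
        have e : Z ^ 3 + algebraMap k K A0 * Z * (τ * Z) ^ 2 + algebraMap k K B0 * (τ * Z) ^ 3 =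
            Z ^ 2 * Z * (1 + algebraMap k K A0 * τ ^ 2 + algebraMap k K B0 * τ ^ 3) := by ring
        rw [e, ← hgτ, hZ]
        ring }
  obtain ⟨s, hs⟩ : ∃ s : k, s ^ 2 = b * g.eval b := IsAlgClosed.exists_pow_nat_eq _ two_pos
  have hs0 : s ≠ 0 := by
    intro h0
    rw [h0, zero_pow two_ne_zero] at hs
    exact mul_ne_zero hb0 hgb hs.symm
  have hgb' : g.eval b = 1 + A0 * b ^ 2 + B0 * b ^ 3 := by
    rw [hg]
    simp only [eval_add, eval_one, eval_mul, eval_C, eval_pow, eval_X]
  have heq : ∀ t : k, t ^ 2 = b * g.eval b → t ≠ 0 → (g.eval b / (b * t)) ^ 2 =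
      (1 / b) ^ 3 + A0 * (1 / b) + B0 := by
    intro t ht ht0
    have e1 : (g.eval b / (b * t)) ^ 2 = g.eval b / b ^ 3 := by
      rw [div_pow, mul_pow, ht]
      field_simp
    rw [e1, hgb']
    field_simp
  refine ⟨1 / b, g.eval b / (b * s), heq s hs hs0, ?_⟩
  refine path h hK (WPt.mk a) hτ (a := 0) (b := b) hb0.symm ?_ ?_
  · intro v hv
    have hZ0 : IsRes v Z 0 := by
      obtain ⟨e, he1, he2⟩ := exists_res_of_pow hK two_ne_zero (x := Z) (v := v) (c := 0) (by
        rw [hZ]
        have := hv.mul (hv.poly (p := g))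
        rwa [zero_mul] at this)
      rw [pow_eq_zero_iff two_ne_zero] at he2
      rwa [he2] at he1
    congr 1
    refine eval_eq hK v a (zeroC r hr) (fun i => isRes_const _) (fun i => ?_)
    fin_cases i
    · exact hZ0
    · have := hv.poly (p := g)
      rwa [hg0] at this
    · have := hv.mul hZ0
      rwa [zero_mul] at this
  · intro v hv
    obtain ⟨e, he1, he2⟩ := exists_res_of_pow hK two_ne_zero (x := Z) (v := v)
      (c := b * g.eval b) (by
        rw [hZ]
        exact hv.mul (hv.poly (p := g)))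
    have he0 : e ≠ 0 := by
      intro h0
      rw [h0, zero_pow two_ne_zero] at he2
      exact mul_ne_zero hb0 hgb he2.symm
    have hval : W.surface.eval hK (WPt.mk a) v = apt W r (1 / b) (g.eval b / (b * e)) := by
      rw [apt_eq hr (heq e he2 he0)]
      have hbe : b * e ≠ 0 := mul_ne_zero hb0 he0
      have h3 : WPt.mk (scale (affC r (1 / b) (g.eval b / (b * e)) hr (heq e he2 he0)) 1 (b * e)
          one_ne_zero hbe) = (aff r (1 / b) (g.eval b / (b * e)) hr (heq e he2 he0) : WPt W k) :=
        same_scale _ _ _ _ _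
      rw [← h3]
      refine eval_eq hK v a _ (fun i => ?_) (fun i => ?_)
      · change IsRes v (algebraMap k K (r i)) (1 * r i)
        rw [one_mul]
        exact isRes_const _
      · fin_cases i
        · change IsRes v Z (1 ^ (2 * W.N) * (b * e) * (1 / b))
          have : (1 : k) ^ (2 * W.N) * (b * e) * (1 / b) = e := by
            rw [one_pow]; field_simp
          rw [this]
          exact he1
        · change IsRes v (aeval τ g) (1 ^ (3 * W.N) * (b * e) * (g.eval b / (b * e)))
          have : (1 : k) ^ (3 * W.N) * (b * e) * (g.eval b / (b * e)) = g.eval b := by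
            rw [one_pow]; field_simp
          rw [this]
          exact hv.poly
        · change IsRes v (τ * Z) (1 ^ 0 * (b * e) * 1)
          have : (1 : k) ^ 0 * (b * e) * 1 = b * e := by ring
          rw [this]
          exact hv.mul he1
    rw [hval]
    have hpm : e = s ∨ e = -s := sq_eq_sq_iff_eq_or_eq_neg.mp (by rw [he2, hs])
    rcases hpm with h4 | h4
    · rw [h4]
    · have h5 : g.eval b / (b * e) = -(g.eval b / (b * s)) := by
        rw [h4]; field_simp
      rw [h5, ← neg_apt hr (heq s hs hs0), he]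

/-- Block EVEN. -/
theorem even_const {ψ : W.surface.Pt → ℂ} (h : Kills W.surface ψ)
    (he : ∀ p, ψ (neg p) = ψ p) (p q : W.surface.Pt) : ψ p = ψ q := by
  have key : ∀ p : W.surface.Pt, ∃ (r : Fin 2 → k) (c d : k), r ≠ 0 ∧
      d ^ 2 = c ^ 3 + MvPolynomial.aeval r W.A * c + MvPolynomial.aeval r W.B ∧
      ψ p = ψ (apt W r c d) := by
    intro p
    rcases aff_or_zero p with ⟨u, hu, rfl⟩ | ⟨u, x, y, hu, h1, rfl⟩
    · obtain ⟨c, d, h1, h2⟩ := even_zero h he hu
      exact ⟨u, c, d, hu, h1, h2⟩
    · exact ⟨u, x, y, hu, h1, by rw [apt_eq hu h1]⟩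
  obtain ⟨r, c, d, hr, h1, h2⟩ := key p
  obtain ⟨r', c', d', hr', h1', h2'⟩ := key q
  rw [h2, h2']
  exact even_aff h he hr hr' h1 h1'

/-- Block SING. -/
theorem odd_singular {ψ : W.surface.Pt → ℂ} (h : Kills W.surface ψ)
    (ho : ∀ p, ψ (neg p) = -ψ p) (c : Coord W k) (hA : MvPolynomial.aeval c.u W.A = 0)
    (hB : MvPolynomial.aeval c.u W.B = 0) : ψ (WPt.mk c) = 0 := by
  have hfix : ∀ p, neg p = p → ψ p = 0 := by
    intro p hp
    have h1 := ho p
    rw [hp] at h1
    have h2 : (2 : ℂ) * ψ p = 0 := by linear_combination h1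
    exact (mul_eq_zero.mp h2).resolve_left two_ne_zero
  rcases aff_or_zero (WPt.mk c) with ⟨u, hu, h1⟩ | ⟨u, x, y, hu, h2, h1⟩
  · rw [h1]
    exact hfix _ (neg_zeroPt u hu)
  · obtain ⟨l, d, hl, hd, e1, e2⟩ := mk_eq_iff.mp h1
    have hue : u = fun i => l * c.u i := by
      funext i
      exact e1 i
    have hA' : MvPolynomial.aeval u W.A = 0 := by
      rw [hue, Helper51.EW.aeval_smul W.hA, hA, mul_zero]
    have hB' : MvPolynomial.aeval u W.B = 0 := by
      rw [hue, Helper51.EW.aeval_smul W.hB, hB, mul_zero]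
    have hxy : y ^ 2 = x ^ 3 := by
      rw [h2, hA', hB']; ring
    rw [h1]
    by_cases hx : x = 0
    · have hy : y = 0 := by
        rw [hx] at hxy
        have : y ^ 2 = 0 := by rw [hxy]; ring
        exact (pow_eq_zero_iff two_ne_zero).mp this
      apply hfix
      rw [neg_aff]
      congr 1
      rw [hy, neg_zero]
    · set s0 := y / x with hs0
      have hs2 : s0 ^ 2 = x := by
        rw [hs0, div_pow, hxy]; field_simp
      have hs3 : s0 ^ 3 = y := by
        have : s0 ^ 3 = s0 ^ 2 * s0 := by ring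
        rw [this, hs2, hs0]; field_simp
      have hs00 : s0 ≠ 0 := by
        intro h0
        apply hx
        rw [← hs2, h0]; ring
      obtain ⟨K, _, _, τ, _, hK, hτ, _⟩ := exists_poly_roots (k := k) two_ne_zero
        (fun _ : Fin 0 => (X : k[X]))
      have hAK : MvPolynomial.aeval (fun i => algebraMap k K (u i)) W.A = 0 := by
        have := MvPolynomial.aeval_algebraMap_apply K u W.A
        rw [hA', map_zero] at this
        exact this
      have hBK : MvPolynomial.aeval (fun i => algebraMap k K (u i)) W.B = 0 := by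
        have := MvPolynomial.aeval_algebraMap_apply K u W.B
        rw [hB', map_zero] at this
        exact this
      have heq : (τ ^ 3) ^ 2 = (τ ^ 2) ^ 3 + MvPolynomial.aeval (fun i => algebraMap k K (u i)) W.A
          * τ ^ 2 + MvPolynomial.aeval (fun i => algebraMap k K (u i)) W.B := by
        rw [hAK, hBK]; ring
      have key : ∀ (t : k) (v : Place k K), IsRes v τ t →
          W.surface.eval hK (apt W (fun i => algebraMap k K (u i)) (τ ^ 2) (τ ^ 3)) v =
            apt W u (t ^ 2) (t ^ 3) := by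
        intro t v hv
        exact eval_apt hK v heq hu (fun i => isRes_const _) (hv.pow 2) (hv.pow 3)
      have h0 : ψ (apt W u (0 ^ 2) (0 ^ 3)) = 0 := by
        apply hfix
        have h3 : (0 ^ 3 : k) ^ 2 = (0 ^ 2) ^ 3 + MvPolynomial.aeval u W.A * 0 ^ 2 +
            MvPolynomial.aeval u W.B := by
          rw [hA', hB']; ring
        rw [neg_apt hu h3]
        congr 1
        ring
      have h5 := path h hK _ hτ (a := 0) (b := s0) hs00.symm (A := 0)
        (B := ψ (apt W u (s0 ^ 2) (s0 ^ 3)))
        (fun v hv => by rw [key 0 v hv, h0]) (fun v hv => by rw [key s0 v hv])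
      rw [hs2, hs3, apt_eq hu h2] at h5
      exact h5.symm

end Pool.Agent.Helper94.EW

end CX
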