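import Mathlib
import Pool.Agent.Helper40.CX.H71SE.Zero
import Pool.Agent.Helper40.CX.H83EW.NoPoints
import Pool.Agent.Helper40.CX.Good2

namespace CX

/-!
Sections of the pencil `Y ^ 2 = X ^ 3 + a H ^ e4 X + b H ^ e6` over the affine line, with `H` a
product of `m` linear factors, with prescribed value at the origin.
-/

set_option autoImplicit false

namespace Pool.Agent.Helper94.EW

open Polynomial

universe u

section Explicit

variable {R : Type*} [CommRing R]

/-- `x + a₁ s + a₂ s²` -/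
noncomputable def PX (x a1 a2 : R) : R[X] := C x + C a1 * X + C a2 * X ^ 2

/-- `y + b₁ s + b₂ s² + b₃ s³` -/
noncomputable def PY (y b1 b2 b3 : R) : R[X] := C y + C b1 * X + C b2 * X ^ 2 + C b3 * X ^ 3

/-- first coefficient of the square root; `w = 1 / (2 y)` -/
def B1 (w x a1 h1 : R) : R := w * (3 * x ^ 2 * a1 + h1)

/-- second coefficient of the square root -/
def B2 (w x a1 a2 h1 h2 : R) : R := w * (3 * x ^ 2 * a2 + 3 * x * a1 ^ 2 + h2 - B1 w x a1 h1 ^ 2)

/-- third coefficient of the square root -/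
def B3 (w x a1 a2 h1 h2 h3 : R) : R :=
  w * (6 * x * a1 * a2 + a1 ^ 3 + h3 - 2 * B1 w x a1 h1 * B2 w x a1 a2 h1 h2)

/-- coefficient of `s⁴` -/
def E4 (w x a1 a2 h1 h2 h3 h4 : R) : R :=
  2 * B1 w x a1 h1 * B3 w x a1 a2 h1 h2 h3 + B2 w x a1 a2 h1 h2 ^ 2 -
    (3 * x * a2 ^ 2 + 3 * a1 ^ 2 * a2) - h4

/-- coefficient of `s⁵` -/
def E5 (w x a1 a2 h1 h2 h3 h5 : R) : R :=
  2 * B2 w x a1 a2 h1 h2 * B3 w x a1 a2 h1 h2 h3 - 3 * a1 * a2 ^ 2 - h5

/-- coefficient of `s⁶` -/
def E6 (w x a1 a2 h1 h2 h3 h6 : R) : R :=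
  B3 w x a1 a2 h1 h2 h3 ^ 2 - a2 ^ 3 - h6

theorem key_identity (w x y a1 a2 h0 h1 h2 h3 h4 h5 h6 : R) (hw : 2 * y * w = 1)
    (hxy : y ^ 2 = x ^ 3 + h0)
    (e4 : E4 w x a1 a2 h1 h2 h3 h4 = 0) (e5 : E5 w x a1 a2 h1 h2 h3 h5 = 0)
    (e6 : E6 w x a1 a2 h1 h2 h3 h6 = 0) :
    PY y (B1 w x a1 h1) (B2 w x a1 a2 h1 h2) (B3 w x a1 a2 h1 h2 h3) ^ 2 = PX x a1 a2 ^ 3 +
      (C h0 + C h1 * X + C h2 * X ^ 2 + C h3 * X ^ 3 + C h4 * X ^ 4 + C h5 * X ^ 5 +
        C h6 * X ^ 6) := by
  have k1 : 2 * y * B1 w x a1 h1 = 3 * x ^ 2 * a1 + h1 := by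
    rw [B1]
    linear_combination (3 * x ^ 2 * a1 + h1) * hw
  have k2 : 2 * y * B2 w x a1 a2 h1 h2 + B1 w x a1 h1 ^ 2 =
      3 * x ^ 2 * a2 + 3 * x * a1 ^ 2 + h2 := by
    rw [B2]
    linear_combination (3 * x ^ 2 * a2 + 3 * x * a1 ^ 2 + h2 - B1 w x a1 h1 ^ 2) * hw
  have k3 : 2 * y * B3 w x a1 a2 h1 h2 h3 + 2 * B1 w x a1 h1 * B2 w x a1 a2 h1 h2 =
      6 * x * a1 * a2 + a1 ^ 3 + h3 := by
    rw [B3]
    linear_combination (6 * x * a1 * a2 + a1 ^ 3 + h3 -
      2 * B1 w x a1 h1 * B2 w x a1 a2 h1 h2) * hw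
  have k4 := e4
  have k5 := e5
  have k6 := e6
  unfold E4 at k4
  unfold E5 at k5
  unfold E6 at k6
  generalize B1 w x a1 h1 = b1 at k1 k2 k3 k4 k5 k6 ⊢
  generalize B2 w x a1 a2 h1 h2 = b2 at k2 k3 k4 k5 k6 ⊢
  generalize B3 w x a1 a2 h1 h2 h3 = b3 at k3 k4 k5 k6 ⊢
  have c0 := congrArg (C : R → R[X]) hxy
  have c1 := congrArg (C : R → R[X]) k1
  have c2 := congrArg (C : R → R[X]) k2
  have c3 := congrArg (C : R → R[X]) k3
  have c4 := congrArg (C : R → R[X]) k4
  have c5 := congrArg (C : R → R[X]) k5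
  have c6 := congrArg (C : R → R[X]) k6
  simp only [map_mul, map_add, map_sub, map_pow, map_zero, map_ofNat] at c0 c1 c2 c3 c4 c5 c6
  unfold PX PY
  linear_combination c0 + c1 * X + c2 * X ^ 2 + c3 * X ^ 3 + c4 * X ^ 4 + c5 * X ^ 5 + c6 * X ^ 6

/-- product of linear factors -/
noncomputable def HH {m : ℕ} (μ : Fin m → R) : R[X] := ∏ i, (1 + C (μ i) * X)

theorem HH_map {S : Type*} [CommRing S] (φ : R →+* S) {m : ℕ} (μ : Fin m → R) :
    (HH μ).map φ = HH (fun i => φ (μ i)) := by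
  simp [HH, Polynomial.map_prod]

theorem HH_natDegree_le {m : ℕ} (μ : Fin m → R) : (HH μ).natDegree ≤ m := by
  unfold HH
  refine (natDegree_prod_le _ _).trans ?_
  refine (Finset.sum_le_sum (g := fun _ => 1) fun i _ => ?_).trans (by simp)
  refine (natDegree_add_le _ _).trans ?_
  rw [natDegree_one, Nat.zero_max]
  exact (natDegree_C_mul_le _ _).trans natDegree_X_le

theorem HH_eval_zero {m : ℕ} (μ : Fin m → R) : (HH μ).eval 0 = 1 := by
  rw [HH, eval_prod]
  simp

/-- the terms of lower degree in `X` -/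
noncomputable def RR (a b x a1 a2 : R) (e4 e6 : ℕ) {m : ℕ} (μ : Fin m → R) : R[X] :=
  C a * HH μ ^ e4 * PX x a1 a2 + C b * HH μ ^ e6

theorem RR_map {S : Type*} [CommRing S] (φ : R →+* S) (a b x a1 a2 : R) (e4 e6 : ℕ) {m : ℕ}
    (μ : Fin m → R) : (RR a b x a1 a2 e4 e6 μ).map φ =
      RR (φ a) (φ b) (φ x) (φ a1) (φ a2) e4 e6 (fun i => φ (μ i)) := by
  simp only [RR, PX, Polynomial.map_add, Polynomial.map_mul, Polynomial.map_pow, map_C, map_X,
    HH_map]

theorem RR_natDegree_le (a b x a1 a2 : R) {e4 e6 m : ℕ} (h4 : a = 0 ∨ m * e4 = 4)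
    (h6 : b = 0 ∨ m * e6 = 6) (μ : Fin m → R) : (RR a b x a1 a2 e4 e6 μ).natDegree ≤ 6 := by
  unfold RR
  refine (natDegree_add_le _ _).trans (max_le ?_ ?_)
  · rcases h4 with rfl | h4
    · simp
    · refine natDegree_mul_le.trans ?_
      have h1 : (PX x a1 a2).natDegree ≤ 2 := by
        unfold PX
        compute_degree
      have h2 : (C a * HH μ ^ e4).natDegree ≤ 4 := by
        refine (natDegree_C_mul_le _ _).trans (natDegree_pow_le.trans ?_)
        rw [← h4, mul_comm]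
        exact Nat.mul_le_mul_right _ (HH_natDegree_le μ)
      omega
  · rcases h6 with rfl | h6
    · simp
    · refine (natDegree_C_mul_le _ _).trans (natDegree_pow_le.trans ?_)
      rw [← h6, mul_comm]
      exact Nat.mul_le_mul_right _ (HH_natDegree_le μ)

theorem RR_eval_zero (a b x a1 a2 : R) (e4 e6 : ℕ) {m : ℕ} (μ : Fin m → R) :
    (RR a b x a1 a2 e4 e6 μ).eval 0 = a * x + b := by
  unfold RR PX
  simp [HH_eval_zero]

theorem expand6 {P : R[X]} (h : P.natDegree ≤ 6) :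
    P = C (P.eval 0) + C (P.coeff 1) * X + C (P.coeff 2) * X ^ 2 + C (P.coeff 3) * X ^ 3 +
      C (P.coeff 4) * X ^ 4 + C (P.coeff 5) * X ^ 5 + C (P.coeff 6) * X ^ 6 := by
  rw [← coeff_zero_eq_eval_zero]
  conv_lhs => rw [P.as_sum_range_C_mul_X_pow' (n := 7) (by omega)]
  simp only [Finset.sum_range_succ, Finset.sum_range_zero]
  simp

end Explicit

section Const

variable {k : Type u} [Field k] [IsAlgClosed k] [Good k] {a b : k}

theorem const_of_eq (hE : 4 * a ^ 3 + 27 * b ^ 2 ≠ 0) {A B : k[X]}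
    (h : B ^ 2 = A ^ 3 + C a * A + C b) : ∃ x0 y0 : k, A = C x0 ∧ B = C y0 := by
  obtain ⟨x0, y0, hx, hy⟩ := Helper83.EW.no_points hE (algebraMap k[X] (RatFunc k) A)
    (algebraMap k[X] (RatFunc k) B) (by
      have := congrArg (algebraMap k[X] (RatFunc k)) h
      simpa only [map_add, map_mul, map_pow, RatFunc.algebraMap_C] using this)
  refine ⟨x0, y0, ?_, ?_⟩
  · apply IsFractionRing.injective k[X] (RatFunc k)
    rw [hx, RatFunc.algebraMap_C]
  · apply IsFractionRing.injective k[X] (RatFunc k)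
    rw [hy, RatFunc.algebraMap_C]

theorem const_of_eq' (hE : 4 * a ^ 3 + 27 * b ^ 2 ≠ 0) {m e4 e6 : ℕ} (hm : Even m)
    (h4 : a = 0 ∨ m * e4 = 4) (h6 : b = 0 ∨ m * e6 = 6) {A B : k[X]} {κ : k}
    (h : B ^ 2 = A ^ 3 + C a * (1 + C κ * X) ^ e4 * A + C b * (1 + C κ * X) ^ e6)
    (hB : B.eval 0 ≠ 0) : κ = 0 := by
  by_contra hk
  set S : k[X] := C κ⁻¹ * (X ^ m - 1) with hS
  have hks : 1 + C κ * S = X ^ m := by
    rw [hS, ← mul_assoc, ← C_mul, mul_inv_cancel₀ hk]; simp
  have hcomp : (B.comp S) ^ 2 = (A.comp S) ^ 3 + C a * (X ^ m) ^ e4 * A.comp S +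
      C b * (X ^ m) ^ e6 := by
    have := congrArg (fun P : k[X] => P.comp S) h
    simp only [pow_comp, add_comp, mul_comp, one_comp, C_comp, X_comp] at this
    rw [this, hks]
  have hcomp' : (B.comp S) ^ 2 = (A.comp S) ^ 3 + C a * X ^ 4 * A.comp S + C b * X ^ 6 := by
    rw [hcomp, ← pow_mul, ← pow_mul]
    congr 1
    · congr 1
      rcases h4 with h4 | h4
      · rw [h4]; simp
      · rw [h4]
    · rcases h6 with h6 | h6
      · rw [h6]; simp
      · rw [h6]
  set θ : RatFunc k := algebraMap k[X] (RatFunc k) X with hθ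
  have hθ0 : θ ≠ 0 := by
    rw [hθ, Ne, map_eq_zero_iff _ (IsFractionRing.injective k[X] (RatFunc k))]
    exact X_ne_zero
  obtain ⟨x0, y0, hx, hy⟩ := Helper83.EW.no_points hE
    (algebraMap k[X] (RatFunc k) (A.comp S) / θ ^ 2)
    (algebraMap k[X] (RatFunc k) (B.comp S) / θ ^ 3) (by
      have := congrArg (algebraMap k[X] (RatFunc k)) hcomp'
      simp only [map_add, map_mul, map_pow, RatFunc.algebraMap_C] at this
      rw [← hθ] at this
      rw [div_pow, div_pow]
      field_simp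
      linear_combination this)
  have hB2 : B.comp S = C y0 * X ^ 3 := by
    apply IsFractionRing.injective k[X] (RatFunc k)
    rw [div_eq_iff (pow_ne_zero 3 hθ0)] at hy
    rw [hy, map_mul, map_pow, RatFunc.algebraMap_C]
  have hS1 : S.eval 1 = 0 := by simp [hS]
  have hS2 : S.eval (-1) = 0 := by simp [hS, hm.neg_pow]
  have e1 : B.eval 0 = y0 := by
    have := congrArg (fun P : k[X] => P.eval 1) hB2
    simpa [eval_comp, hS1] using this
  have e2 : B.eval 0 = -y0 := by
    have := congrArg (fun P : k[X] => P.eval (-1)) hB2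
    simp only [eval_comp, hS2, eval_mul, eval_C, eval_pow, eval_X] at this
    rw [this]; ring
  apply hB
  have h2 : (2 : k) * y0 = 0 := by linear_combination e1 * (-1) + e2
  rw [e1]
  exact (mul_eq_zero.mp h2).resolve_left two_ne_zero

end Const

section Main

variable {k : Type u} [Field k] [IsAlgClosed k] [Good k] {a b : k}

/-- Sections with prescribed values at the origin, the linear factors being given by linear forms
in `N` parameters, except for one of them, which is free. -/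
theorem exists_sections (hE : 4 * a ^ 3 + 27 * b ^ 2 ≠ 0) {m e4 e6 : ℕ} (hm : Even m)
    (h4 : a = 0 ∨ m * e4 = 4) (h6 : b = 0 ∨ m * e6 = 6)
    {ι : Type} [Fintype ι] [DecidableEq ι] (i0 : ι) (s0 : Fin m) (x y : ι → k)
    (hxy : ∀ i, y i ^ 2 = x i ^ 3 + a * x i + b) (hy : ∀ i, y i ≠ 0)
    (l : ι → Fin m → (ι → k) →ₗ[k] k) :
    ∃ (q : ι → k) (κ : k) (A B : ι → k[X]), q ≠ 0 ∧
      (∀ i, (A i).eval 0 = x i ∧ (B i).eval 0 = y i) ∧
      ∀ i, B i ^ 2 = A i ^ 3 +
        C a * HH (fun s => if i = i0 ∧ s = s0 then κ else l i s q) ^ e4 * A i +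
        C b * HH (fun s => if i = i0 ∧ s = s0 then κ else l i s q) ^ e6 := by
  classical
  -- the unknowns: `none` is `κ`, `inl i` is `q i`, `inr (i, ε)` is the coefficient of `A i`
  let σ := Option (ι ⊕ (ι × Fin 2))
  let R := MvPolynomial σ k
  let c : k → R := fun t => MvPolynomial.C t
  let lp : ι → Fin m → R := fun i s =>
    ∑ j, MvPolynomial.C (l i s (Pi.single j 1)) * MvPolynomial.X (some (Sum.inl j))
  let mp : ι → Fin m → R := fun i s =>
    if i = i0 ∧ s = s0 then MvPolynomial.X none else lp i s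
  let w : ι → R := fun i => c ((2 * y i)⁻¹)
  let u1 : ι → R := fun i => MvPolynomial.X (some (Sum.inr (i, 0)))
  let u2 : ι → R := fun i => MvPolynomial.X (some (Sum.inr (i, 1)))
  let hp : ι → ℕ → R := fun i n => (RR (c a) (c b) (c (x i)) (u1 i) (u2 i) e4 e6 (mp i)).coeff n
  let eqs : ι × Fin 3 → R := fun p =>
    if p.2 = 0 then E4 (w p.1) (c (x p.1)) (u1 p.1) (u2 p.1) (hp p.1 1) (hp p.1 2) (hp p.1 3)
      (hp p.1 4)
    else if p.2 = 1 then E5 (w p.1) (c (x p.1)) (u1 p.1) (u2 p.1) (hp p.1 1) (hp p.1 2)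
      (hp p.1 3) (hp p.1 5)
    else E6 (w p.1) (c (x p.1)) (u1 p.1) (u2 p.1) (hp p.1 1) (hp p.1 2) (hp p.1 3) (hp p.1 6)
  -- evaluation
  have evl : ∀ (v : σ → k) (i : ι) (s : Fin m), MvPolynomial.eval v (lp i s) =
      l i s (fun j => v (some (Sum.inl j))) := by
    intro v i s
    simp only [lp, map_sum, map_mul, MvPolynomial.eval_C, MvPolynomial.eval_X]
    have h1 : (fun j => v (some (Sum.inl j))) =
        ∑ j, v (some (Sum.inl j)) • (Pi.single j (1 : k) : ι → k) := by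
      ext t
      simp [Finset.sum_apply, Pi.single_apply]
    rw [h1, map_sum]
    refine Finset.sum_congr rfl fun j _ => ?_
    rw [map_smul, smul_eq_mul, mul_comm]
  have evm : ∀ (v : σ → k) (i : ι), (fun s => MvPolynomial.eval v (mp i s)) =
      fun s => if i = i0 ∧ s = s0 then v none else l i s (fun j => v (some (Sum.inl j))) := by
    intro v i
    ext s
    simp only [mp]
    split_ifs with h
    · simp
    · exact evl v i s
  have ev1 : ∀ (v : σ → k) (i : ι), MvPolynomial.eval v (u1 i) = v (some (Sum.inr (i, 0))) := by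
    intro v i; simp [u1]
  have ev2 : ∀ (v : σ → k) (i : ι), MvPolynomial.eval v (u2 i) = v (some (Sum.inr (i, 1))) := by
    intro v i; simp [u2]
  have evw : ∀ (v : σ → k) (i : ι), MvPolynomial.eval v (w i) = (2 * y i)⁻¹ := by
    intro v i; simp [w, c]
  have evc : ∀ (v : σ → k) (t : k), MvPolynomial.eval v (c t) = t := by
    intro v i; simp [c]
  let Rv : (σ → k) → ι → k[X] := fun v i =>
    RR a b (x i) (v (some (Sum.inr (i, 0)))) (v (some (Sum.inr (i, 1)))) e4 e6
      (fun s => if i = i0 ∧ s = s0 then v none else l i s (fun j => v (some (Sum.inl j))))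
  let hv : (σ → k) → ι → ℕ → k := fun v i n => (Rv v i).coeff n
  have evh : ∀ (v : σ → k) (i : ι) (n : ℕ), MvPolynomial.eval v (hp i n) = hv v i n := by
    intro v i n
    simp only [hp, hv, Rv]
    rw [← evm v i, ← coeff_map, RR_map, evc, evc, evc, ev1, ev2]
  have evE : ∀ (v : σ → k) (i : ι),
      (MvPolynomial.eval v (eqs (i, 0)) = E4 (2 * y i)⁻¹ (x i) (v (some (Sum.inr (i, 0))))
        (v (some (Sum.inr (i, 1)))) (hv v i 1) (hv v i 2) (hv v i 3) (hv v i 4)) ∧
      (MvPolynomial.eval v (eqs (i, 1)) = E5 (2 * y i)⁻¹ (x i) (v (some (Sum.inr (i, 0))))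
        (v (some (Sum.inr (i, 1)))) (hv v i 1) (hv v i 2) (hv v i 3) (hv v i 5)) ∧
      (MvPolynomial.eval v (eqs (i, 2)) = E6 (2 * y i)⁻¹ (x i) (v (some (Sum.inr (i, 0))))
        (v (some (Sum.inr (i, 1)))) (hv v i 1) (hv v i 2) (hv v i 3) (hv v i 6)) := by
    intro v i
    refine ⟨?_, ?_, ?_⟩
    · simp only [eqs, if_true, E4, B1, B2, B3, map_add, map_sub, map_mul, map_pow, map_ofNat, evh,
        ev1, ev2, evw, evc]
    · simp only [eqs, E5, B1, B2, B3, map_add, map_sub, map_mul, map_pow, map_ofNat, evh,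
        ev1, ev2, evw, evc, if_true, one_ne_zero, if_false]
    · have h20 : ((2 : Fin 3) = 0) = False := by decide
      have h21 : ((2 : Fin 3) = 1) = False := by decide
      simp only [eqs, E6, B1, B2, B3, map_add, map_sub, map_mul, map_pow, map_ofNat, evh,
        ev1, ev2, evw, evc, h20, h21, if_false]
  have hHone : ∀ μ : Fin m → k, (∀ s, μ s = 0) → HH μ = 1 := by
    intro μ hμ
    unfold HH
    apply Finset.prod_eq_one
    intro s _
    rw [hμ s]; simp
  have hv0 : ∀ i n, n ≠ 0 → hv 0 i n = 0 := by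
    intro i n hn
    simp only [hv, Rv]
    have h1 : HH (fun s => if i = i0 ∧ s = s0 then (0 : σ → k) none
        else l i s (fun j => (0 : σ → k) (some (Sum.inl j)))) = 1 := by
      apply hHone
      intro s
      beta_reduce
      split_ifs
      · rfl
      · exact map_zero (l i s)
    rw [RR, h1, PX]
    simp [coeff_C, hn]
  obtain ⟨e⟩ : Nonempty (Fin (Fintype.card (ι × Fin 3)) ≃ ι × Fin 3) :=
    ⟨(Fintype.equivFin (ι × Fin 3)).symm⟩
  obtain ⟨v, hv1, hv2⟩ := Pool.Agent.Helper71.SE.exists_common_zero (K := k) (ι := σ)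
    (fun j => eqs (e j)) (by
      intro j
      obtain ⟨i, t⟩ := e j
      have h1 : hv 0 i 1 = 0 := hv0 i 1 (by norm_num)
      have h2 : hv 0 i 2 = 0 := hv0 i 2 (by norm_num)
      have h3 : hv 0 i 3 = 0 := hv0 i 3 (by norm_num)
      have h4 : hv 0 i 4 = 0 := hv0 i 4 (by norm_num)
      have h5 : hv 0 i 5 = 0 := hv0 i 5 (by norm_num)
      have h6 : hv 0 i 6 = 0 := hv0 i 6 (by norm_num)
      obtain ⟨r1, r2, r3⟩ := evE 0 i
      fin_cases t
      · refine r1.trans ?_
        simp [E4, B1, B2, B3, h1, h2, h3, h4]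
      · refine r2.trans ?_
        simp [E5, B1, B2, B3, h1, h2, h3, h5]
      · refine r3.trans ?_
        simp [E6, B1, B2, B3, h1, h2, h3, h6])
    (by
      rw [Nat.card_eq_fintype_card]
      simp only [σ, Fintype.card_option, Fintype.card_sum, Fintype.card_prod, Fintype.card_fin]
      omega)
  have hEq : ∀ p, MvPolynomial.eval v (eqs p) = 0 := by
    intro p
    have := hv2 (e.symm p)
    simpa using this
  let q : ι → k := fun j => v (some (Sum.inl j))
  let κ : k := v none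
  let A : ι → k[X] := fun i => PX (x i) (v (some (Sum.inr (i, 0)))) (v (some (Sum.inr (i, 1))))
  let B : ι → k[X] := fun i => PY (y i)
    (B1 (2 * y i)⁻¹ (x i) (v (some (Sum.inr (i, 0)))) (hv v i 1))
    (B2 (2 * y i)⁻¹ (x i) (v (some (Sum.inr (i, 0)))) (v (some (Sum.inr (i, 1)))) (hv v i 1)
      (hv v i 2))
    (B3 (2 * y i)⁻¹ (x i) (v (some (Sum.inr (i, 0)))) (v (some (Sum.inr (i, 1)))) (hv v i 1)
      (hv v i 2) (hv v i 3))
  have hAB : ∀ i, B i ^ 2 = A i ^ 3 +
      C a * HH (fun s => if i = i0 ∧ s = s0 then κ else l i s q) ^ e4 * A i +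
      C b * HH (fun s => if i = i0 ∧ s = s0 then κ else l i s q) ^ e6 := by
    intro i
    obtain ⟨r1, r2, r3⟩ := evE v i
    rw [hEq] at r1 r2 r3
    have h2y : 2 * y i * (2 * y i)⁻¹ = 1 := mul_inv_cancel₀ (mul_ne_zero two_ne_zero (hy i))
    have := key_identity (2 * y i)⁻¹ (x i) (y i) _ _ (a * x i + b) _ _ _ _ _ _ h2y
      (by rw [hxy i]; ring) r1.symm r2.symm r3.symm
    have h2 := expand6 (RR_natDegree_le a b (x i) (v (some (Sum.inr (i, 0))))
      (v (some (Sum.inr (i, 1)))) h4 h6 (fun s => if i = i0 ∧ s = s0 then v none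
        else l i s (fun j => v (some (Sum.inl j)))))
    rw [RR_eval_zero] at h2
    rw [add_assoc]
    change _ = A i ^ 3 + Rv v i
    rw [show Rv v i = _ from h2]
    exact this
  refine ⟨q, κ, A, B, ?_, ?_, hAB⟩
  · intro hq
    apply hv1
    have hl : ∀ i s, l i s q = 0 := by intro i s; rw [hq]; exact map_zero _
    have hB0 : ∀ i, (B i).eval 0 ≠ 0 := by
      intro i
      have : (B i).eval 0 = y i := by simp [B, PY]
      rw [this]; exact hy i
    have hAi : ∀ i, (∃ x0, A i = C x0) → v (some (Sum.inr (i, 0))) = 0 ∧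
        v (some (Sum.inr (i, 1))) = 0 := by
      rintro i ⟨x0, hi⟩
      have h1 : (A i).coeff 1 = v (some (Sum.inr (i, 0))) := by
        simp [A, PX, coeff_C, coeff_X_pow]
      have h2 : (A i).coeff 2 = v (some (Sum.inr (i, 1))) := by
        simp [A, PX, coeff_X_pow]
      rw [← h1, ← h2, hi]
      simp
    have hother : ∀ i, (i = i0 → κ = 0) → ∃ x0, A i = C x0 := by
      intro i hi
      have h1 := hAB i
      have h2 : HH (fun s => if i = i0 ∧ s = s0 then κ else l i s q) = 1 := by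
        apply hHone
        intro s
        beta_reduce
        split_ifs with hs
        · exact hi hs.1
        · exact hl i s
      rw [h2, one_pow, one_pow, mul_one, mul_one] at h1
      obtain ⟨x0, y0, h3, _⟩ := const_of_eq hE h1
      exact ⟨x0, h3⟩
    have h00 := hAB i0
    have h01 : HH (fun s => if i0 = i0 ∧ s = s0 then κ else l i0 s q) = 1 + C κ * X := by
      unfold HH
      rw [Finset.prod_eq_single s0]
      · simp
      · intro s _ hs
        beta_reduce
        rw [if_neg (fun h => hs h.2), hl]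
        simp
      · intro h; exact absurd (Finset.mem_univ _) h
    rw [h01] at h00
    have hk : κ = 0 := const_of_eq' hE hm h4 h6 h00 (hB0 i0)
    funext s
    match s with
    | none => exact hk
    | some (Sum.inl j) => exact congrFun hq j
    | some (Sum.inr (i, t)) =>
      obtain ⟨g1, g2⟩ := hAi i (hother i (fun _ => hk))
      fin_cases t
      · exact g1
      · exact g2
  · intro i
    constructor
    · simp [A, PX]
    · simp [B, PY]

end Main

end Pool.Agent.Helper94.EW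

end CX
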